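import Pool.Agent.Q14.SM.Schw

set_option autoImplicit false

/-! # Job FAM of the project SM: holomorphic dependence on the parameter -/

open Complex Filter Topology Set Metric MeasureTheory

namespace Q14.SM

open Q90.SM Pool.Agent.W677.Mar

/-- first order Taylor estimate from a bound of the derivative -/
theorem taylor1 {f : ℂ → ℂ} {z₀ : ℂ} {ρ B : ℝ} (hρ : 0 < ρ) (hf : DifferentiableOn ℂ f (ball z₀ ρ))
    (hB : ∀ z ∈ ball z₀ ρ, ‖deriv f z‖ ≤ B) {w : ℂ} (hw : ‖w‖ < ρ / 2) :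
    ‖f (z₀ + w) - f z₀ - deriv f z₀ * w‖ ≤ (2 * B / ρ) * ‖w‖ * ‖w‖ := by
  have hd : DifferentiableOn ℂ (deriv f) (ball z₀ ρ) := hf.deriv isOpen_ball
  -- bound of the second derivative
  have h2 : ∀ z ∈ ball z₀ (ρ / 2), ‖deriv (deriv f) z‖ ≤ 2 * B / ρ := by
    intro z hz
    have hz' : dist z z₀ < ρ / 2 := hz
    have hr : ∀ r : ℝ, 0 < r → r < ρ / 2 → ‖deriv (deriv f) z‖ ≤ B / r := by
      intro r hr0 hr1
      have hsub : closedBall z r ⊆ ball z₀ ρ := by
        intro y hy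
        have : dist y z₀ ≤ dist y z + dist z z₀ := dist_triangle _ _ _
        have hy' : dist y z ≤ r := hy
        rw [mem_ball]
        linarith
      refine norm_deriv_le_of_forall_mem_sphere_norm_le hr0 ?_ ?_
      · refine DifferentiableOn.diffContOnCl ?_
        rw [closure_ball _ hr0.ne']
        exact hd.mono hsub
      · intro y hy
        exact hB y (hsub (sphere_subset_closedBall hy))
    have hB0 : 0 ≤ B := (norm_nonneg _).trans (hB z₀ (mem_ball_self hρ))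
    have hlim : Tendsto (fun r : ℝ => B / r) (𝓝[<] (ρ / 2)) (𝓝 (B / (ρ / 2))) := by
      have : ContinuousAt (fun r : ℝ => B / r) (ρ / 2) :=
        continuousAt_const.div continuousAt_id (by positivity)
      exact this.tendsto.mono_left nhdsWithin_le_nhds
    have h3 : ‖deriv (deriv f) z‖ ≤ B / (ρ / 2) := by
      refine ge_of_tendsto hlim ?_
      have : Ioo (0 : ℝ) (ρ / 2) ∈ 𝓝[<] (ρ / 2) := Ioo_mem_nhdsLT (by positivity)
      filter_upwards [this] with r hr'
      exact hr r hr'.1 hr'.2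
    have h4 : B / (ρ / 2) = 2 * B / ρ := by field_simp
    rw [← h4]
    exact h3
  have hsub2 : ball z₀ (ρ / 2) ⊆ ball z₀ ρ := ball_subset_ball (by linarith)
  have h3 : ∀ z ∈ ball z₀ (ρ / 2), ‖deriv f z - deriv f z₀‖ ≤ (2 * B / ρ) * ‖z - z₀‖ := by
    intro z hz
    refine Convex.norm_image_sub_le_of_norm_deriv_le (s := ball z₀ (ρ / 2)) (𝕜 := ℂ) ?_ ?_
      (convex_ball _ _) (mem_ball_self (by positivity)) hz
    · intro x hx
      exact hd.differentiableAt (isOpen_ball.mem_nhds (hsub2 hx))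
    · exact h2
  -- the mean value inequality for `f z - f'(z₀) z` on the ball of radius slightly more than `‖w‖`
  have h4 : ∀ r : ℝ, ‖w‖ < r → r < ρ / 2 →
      ‖f (z₀ + w) - f z₀ - deriv f z₀ * w‖ ≤ (2 * B / ρ) * r * ‖w‖ := by
    intro r hr1 hr2
    have hsub3 : ball z₀ r ⊆ ball z₀ (ρ / 2) := ball_subset_ball hr2.le
    have hr0 : 0 < r := lt_of_le_of_lt (norm_nonneg _) hr1
    have h5 : ∀ z ∈ ball z₀ r, HasDerivAt (fun z => f z - deriv f z₀ * z)
        (deriv f z - deriv f z₀) z := by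
      intro z hz
      have e1 : HasDerivAt f (deriv f z) z :=
        (hf.differentiableAt (isOpen_ball.mem_nhds (hsub2 (hsub3 hz)))).hasDerivAt
      have e2 : HasDerivAt (fun z => deriv f z₀ * z) (deriv f z₀) z := by
        simpa using (hasDerivAt_id z).const_mul (deriv f z₀)
      exact e1.sub e2
    have hB0 : 0 ≤ B := (norm_nonneg _).trans (hB z₀ (mem_ball_self hρ))
    have h6 := Convex.norm_image_sub_le_of_norm_hasDerivWithin_le
      (f := fun z => f z - deriv f z₀ * z) (f' := fun z => deriv f z - deriv f z₀)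
      (s := ball z₀ r) (C := (2 * B / ρ) * r) (x := z₀) (y := z₀ + w)
      (fun z hz => (h5 z hz).hasDerivWithinAt)
      (fun z hz => by
        refine (h3 z (hsub3 hz)).trans ?_
        have hz' : ‖z - z₀‖ < r := by
          rw [← dist_eq_norm]
          exact hz
        gcongr)
      (convex_ball _ _) (mem_ball_self hr0) (by
        rw [mem_ball, dist_eq_norm, add_sub_cancel_left]
        exact hr1)
    have e3 : f (z₀ + w) - deriv f z₀ * (z₀ + w) - (f z₀ - deriv f z₀ * z₀)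
        = f (z₀ + w) - f z₀ - deriv f z₀ * w := by ring
    rw [e3, add_sub_cancel_left] at h6
    exact h6
  have hlim : Tendsto (fun r : ℝ => (2 * B / ρ) * r * ‖w‖) (𝓝[>] ‖w‖)
      (𝓝 ((2 * B / ρ) * ‖w‖ * ‖w‖)) := by
    have : ContinuousAt (fun r : ℝ => (2 * B / ρ) * r * ‖w‖) ‖w‖ := by fun_prop
    exact this.tendsto.mono_left nhdsWithin_le_nhds
  refine ge_of_tendsto hlim ?_
  have : Ioo ‖w‖ (ρ / 2) ∈ 𝓝[>] ‖w‖ := Ioo_mem_nhdsGT hw
  filter_upwards [this] with r hr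
  exact h4 r hr.1 hr.2

/-- the derivative in `z` of a family which is holomorphic in both variables is holomorphic in the
parameter, if it is bounded -/
theorem deriv_param {f : ℂ → ℂ → ℂ} {z₀ : ℂ} {ρ B : ℝ} (hρ : 0 < ρ)
    (hf : ∀ l ∈ ball (0 : ℂ) 1, DifferentiableOn ℂ (f l) (ball z₀ ρ))
    (hl : ∀ z ∈ ball z₀ ρ, DifferentiableOn ℂ (fun l => f l z) (ball 0 1))
    (hB : ∀ l ∈ ball (0 : ℂ) 1, ∀ z ∈ ball z₀ ρ, ‖deriv (f l) z‖ ≤ B) :
    DifferentiableOn ℂ (fun l => deriv (f l) z₀) (ball 0 1) := by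
  have hB0 : 0 ≤ B :=
    (norm_nonneg _).trans (hB 0 (mem_ball_self one_pos) z₀ (mem_ball_self hρ))
  -- the difference quotients
  let w : ℕ → ℂ := fun n => ((1 / ((n : ℝ) + 1) : ℝ) : ℂ)
  have hwn : ∀ n, ‖w n‖ = 1 / ((n : ℝ) + 1) := by
    intro n
    change ‖((1 / ((n : ℝ) + 1) : ℝ) : ℂ)‖ = _
    rw [Complex.norm_real, Real.norm_eq_abs, abs_of_pos (by positivity)]
  have hw0 : ∀ n, w n ≠ 0 := by
    intro n h
    have := hwn n
    rw [h, norm_zero] at this
    have h2 : (0 : ℝ) < 1 / ((n : ℝ) + 1) := by positivity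
    linarith
  have hlim : Tendsto (fun n : ℕ => 1 / ((n : ℝ) + 1)) atTop (𝓝 0) :=
    tendsto_one_div_add_atTop_nhds_zero_nat
  have hev : ∀ᶠ n : ℕ in atTop, ‖w n‖ < ρ / 2 := by
    have := hlim.eventually_lt_const (show (0 : ℝ) < ρ / 2 by positivity)
    filter_upwards [this] with n hn
    rw [hwn]
    exact hn
  have hunif : TendstoUniformlyOn (fun (n : ℕ) (l : ℂ) => (f l (z₀ + w n) - f l z₀) / w n)
      (fun l => deriv (f l) z₀) atTop (ball 0 1) := by
    rw [Metric.tendstoUniformlyOn_iff]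
    intro ε hε
    have h1 : Tendsto (fun n : ℕ => (2 * B / ρ) * (1 / ((n : ℝ) + 1))) atTop (𝓝 ((2 * B / ρ) * 0)) :=
      hlim.const_mul _
    rw [mul_zero] at h1
    filter_upwards [hev, h1.eventually_lt_const hε] with n hn hn2 l hl'
    have h2 := taylor1 hρ (hf l hl') (hB l hl') hn
    have h3 : (f l (z₀ + w n) - f l z₀) / w n - deriv (f l) z₀ =
        (f l (z₀ + w n) - f l z₀ - deriv (f l) z₀ * w n) / w n := by
      field_simp [hw0 n]
    rw [dist_comm, dist_eq_norm, h3, norm_div]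
    have hpos : 0 < ‖w n‖ := norm_pos_iff.2 (hw0 n)
    rw [div_lt_iff₀ hpos]
    refine lt_of_le_of_lt h2 ?_
    rw [← hwn] at hn2
    exact mul_lt_mul_of_pos_right hn2 hpos
  refine hunif.tendstoLocallyUniformlyOn.differentiableOn ?_ isOpen_ball
  filter_upwards [hev] with n hn
  have hmem : z₀ + w n ∈ ball z₀ ρ := by
    rw [mem_ball, dist_eq_norm, add_sub_cancel_left]
    linarith
  exact ((hl _ hmem).sub (hl _ (mem_ball_self hρ))).div_const _

/-- the job FAM -/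
theorem fam : Q90.SM.S_fam := by
  intro Ψ hΨ h hs z₀ hz₀
  -- a ball around `z₀`
  obtain ⟨r₁, hr1, hr2⟩ : ∃ r₁ : ℝ, 1 < r₁ ∧ r₁ < ‖z₀‖ := exists_between hz₀
  set ρ := ‖z₀‖ - r₁ with hρdef
  have hρ : 0 < ρ := by linarith
  have hball : ∀ z ∈ ball z₀ ρ, r₁ < ‖z‖ := by
    intro z hz
    have h1 : ‖z₀‖ - ‖z‖ ≤ ‖z₀ - z‖ := norm_sub_norm_le _ _
    have h2 : ‖z₀ - z‖ < ρ := by
      rw [← dist_eq_norm, dist_comm]
      exact hz
    linarith
  have hext : ∀ z ∈ ball z₀ ρ, 1 < ‖z‖ := fun z hz => hr1.trans (hball z hz)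
  -- the uniform bound of the derivative
  obtain ⟨B₀, hB₀⟩ : ∃ B₀ : ℝ, B₀ = -Real.log (1 - (r₁⁻¹) ^ 2) := ⟨_, rfl⟩
  have hhb : ∀ l ∈ ball (0 : ℂ) 1, ∀ z ∈ ball z₀ ρ, ‖h l z‖ ≤ B₀ := by
    intro l hl z hz
    have hsl := hs l hl
    have hS := toSg hsl.1 hsl.2.1 hsl.2.2.1 hsl.2.2.2.1 hsl.2.2.2.2.1 hsl.2.2.2.2.2
    have hz1 := hext z hz
    have hz0 : z ≠ 0 := by
      rintro rfl
      rw [norm_zero] at hz1
      linarith
    have hmem : z⁻¹ ∈ ball (0 : ℂ) 1 := by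
      rw [mem_ball_zero_iff, norm_inv]
      exact inv_lt_one_of_one_lt₀ hz1
    have h1 := goluzin hS hmem
    rw [hat_ne _ _ (inv_ne_zero hz0), inv_inv] at h1
    refine h1.trans ?_
    rw [hB₀]
    apply neg_le_neg
    have h2 : ‖z⁻¹‖ ≤ r₁⁻¹ := by
      rw [norm_inv]
      exact inv_anti₀ (by linarith) (hball z hz).le
    have h3 : r₁⁻¹ < 1 := inv_lt_one_of_one_lt₀ hr1
    have h4 : 0 < r₁⁻¹ := by positivity
    apply Real.log_le_log
    · nlinarith
    · have : ‖z⁻¹‖ ^ 2 ≤ r₁⁻¹ ^ 2 := by gcongr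
      linarith
  have hψ' : ∀ l ∈ ball (0 : ℂ) 1, ∀ z ∈ ball z₀ ρ, ‖deriv (Ψ l) z‖ ≤ Real.exp B₀ := by
    intro l hl z hz
    rw [← (hs l hl).2.2.2.2.1 z (hext z hz)]
    rw [Complex.norm_exp]
    exact Real.exp_le_exp.2 ((Complex.re_le_norm _).trans (hhb l hl z hz))
  have hdiff : ∀ l ∈ ball (0 : ℂ) 1, ∀ z₁ ρ₁, ball z₁ ρ₁ ⊆ ball z₀ ρ →
      DifferentiableOn ℂ (Ψ l) (ball z₁ ρ₁) := by
    intro l hl z₁ ρ₁ hsub
    exact (hs l hl).1.mono fun z hz => hext z (hsub hz)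
  -- first derivative
  have hD1 : ∀ z₁ ∈ ball z₀ (ρ / 2), DifferentiableOn ℂ (fun l => deriv (Ψ l) z₁) (ball 0 1) := by
    intro z₁ hz₁
    have hsub : ball z₁ (ρ / 2) ⊆ ball z₀ ρ := by
      intro y hy
      have h1 : dist y z₀ ≤ dist y z₁ + dist z₁ z₀ := dist_triangle _ _ _
      have h2 : dist y z₁ < ρ / 2 := hy
      have h3 : dist z₁ z₀ < ρ / 2 := hz₁
      rw [mem_ball]
      linarith
    exact deriv_param (B := Real.exp B₀) (by positivity)
      (fun l hl => hdiff l hl _ _ hsub)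
      (fun z hz => hΨ.2.1 z (hext z (hsub hz)))
      (fun l hl z hz => hψ' l hl z (hsub hz))
  -- second derivative
  have hsub2 : ball z₀ (ρ / 2) ⊆ ball z₀ ρ := ball_subset_ball (by linarith)
  have hD2 : DifferentiableOn ℂ (fun l => deriv (deriv (Ψ l)) z₀) (ball 0 1) := by
    refine deriv_param (ρ := ρ / 4) (B := Real.exp B₀ / (ρ / 4)) (by positivity) ?_ ?_ ?_
    · intro l hl
      refine ((hdiff l hl z₀ ρ subset_rfl).deriv isOpen_ball).mono ?_
      exact ball_subset_ball (by linarith)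
    · intro z hz
      exact hD1 z (ball_subset_ball (by linarith) hz)
    · intro l hl z hz
      have hz' : dist z z₀ < ρ / 4 := hz
      have hsub : closedBall z (ρ / 4) ⊆ ball z₀ ρ := by
        intro y hy
        have h1 : dist y z₀ ≤ dist y z + dist z z₀ := dist_triangle _ _ _
        have h2 : dist y z ≤ ρ / 4 := hy
        rw [mem_ball]
        linarith
      refine norm_deriv_le_of_forall_mem_sphere_norm_le (by positivity) ?_ ?_
      · refine DifferentiableOn.diffContOnCl ?_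
        rw [closure_ball _ (by positivity)]
        exact ((hdiff l hl z₀ ρ subset_rfl).deriv isOpen_ball).mono hsub
      · intro y hy
        exact hψ' l hl y (hsub (sphere_subset_closedBall hy))
  have hq : ∀ l ∈ ball (0 : ℂ) 1, deriv (h l) z₀ = deriv (deriv (Ψ l)) z₀ / deriv (Ψ l) z₀ := by
    intro l hl
    rw [sig_deriv2 (hs l hl) hz₀, ← (hs l hl).2.2.2.2.1 z₀ hz₀]
    exact (mul_div_cancel_left₀ _ (Complex.exp_ne_zero _)).symm
  refine ⟨?_, ?_⟩
  · have h1 : DifferentiableOn ℂ (fun l => deriv (deriv (Ψ l)) z₀ / deriv (Ψ l) z₀) (ball 0 1) := by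
      refine hD2.div (hD1 z₀ (mem_ball_self (by positivity))) ?_
      intro l hl
      rw [← (hs l hl).2.2.2.2.1 z₀ hz₀]
      exact Complex.exp_ne_zero _
    exact h1.congr fun l hl => hq l hl
  · rw [hq 0 (mem_ball_self one_pos)]
    have h1 : deriv (Ψ 0) =ᶠ[𝓝 z₀] fun _ => 1 := by
      have h2 : ∀ z : ℂ, 1 < ‖z‖ → deriv (Ψ 0) z = 1 := by
        intro z hz
        have h3 : Ψ 0 =ᶠ[𝓝 z] fun z => z := by
          filter_upwards [isOpen_ext.mem_nhds hz] with y hy
          exact hΨ.2.2 y hy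
        rw [h3.deriv_eq]
        exact deriv_id z
      filter_upwards [isOpen_ext.mem_nhds hz₀] with z hz
      exact h2 z hz
    rw [h1.deriv_eq, deriv_const, zero_div]

end Q14.SM
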