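import Pool.Agent.Q90.SM.Stm

set_option autoImplicit false

/-! # Job SCHW of the project SM: the Riccati equation along the rays -/

open Complex Filter Topology Set Metric MeasureTheory

namespace Q14.SM

open Q90.SM Pool.Agent.W677.Mar

theorem sig_hol {ψ h : ℂ → ℂ} (hs : IsSig ψ h) : Hol h 0 := ⟨hs.2.2.2.1, hs.2.2.2.2.2⟩

/-- `ψ'' = ψ' h'` -/
theorem sig_deriv2 {ψ h : ℂ → ℂ} (hs : IsSig ψ h) {w : ℂ} (hw : 1 < ‖w‖) :
    deriv (deriv ψ) w = Complex.exp (h w) * deriv h w := by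
  have hU : {z : ℂ | 1 < ‖z‖} ∈ 𝓝 w := isOpen_ext.mem_nhds hw
  have h1 : deriv ψ =ᶠ[𝓝 w] fun z => Complex.exp (h z) := by
    filter_upwards [hU] with z hz
    exact (hs.2.2.2.2.1 z hz).symm
  rw [h1.deriv_eq]
  exact (((hs.2.2.2.1.differentiableAt hU).hasDerivAt).cexp).deriv

theorem schw_eq {ψ h : ℂ → ℂ} (hs : IsSig ψ h) {z : ℂ} (hz : 1 < ‖z‖) :
    schw ψ z = deriv (deriv h) z - (deriv h z) ^ 2 / 2 := by
  have hq : ∀ w : ℂ, 1 < ‖w‖ → deriv (deriv ψ) w / deriv ψ w = deriv h w := by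
    intro w hw
    rw [sig_deriv2 hs hw, ← hs.2.2.2.2.1 w hw]
    exact mul_div_cancel_left₀ _ (Complex.exp_ne_zero _)
  unfold schw
  rw [hq z hz]
  have h1 : (fun w => deriv (deriv ψ) w / deriv ψ w) =ᶠ[𝓝 z] deriv h := by
    filter_upwards [isOpen_ext.mem_nhds hz] with w hw
    exact hq w hw
  rw [h1.deriv_eq]

/-- the second derivative of `hat h` -/
theorem hat_deriv2 {h : ℂ → ℂ} (hh : Hol h 0) {v : ℂ} (hv : v ∈ ball (0 : ℂ) 1) (hv0 : v ≠ 0) :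
    deriv (deriv (hat h 0)) v = deriv (deriv h) v⁻¹ * (v ^ 4)⁻¹ + 2 * deriv h v⁻¹ * (v ^ 3)⁻¹ := by
  have hz := inv_ext hv hv0
  have h1 : deriv (hat h 0) =ᶠ[𝓝 v] fun w => deriv h w⁻¹ * -(w ^ 2)⁻¹ := by
    have hb : ball (0 : ℂ) 1 ∈ 𝓝 v := isOpen_ball.mem_nhds hv
    filter_upwards [hb, isOpen_ne.mem_nhds hv0] with w hw hw0
    exact (hat_hasDeriv hh hw hw0).deriv
  rw [h1.deriv_eq]
  have hd : DifferentiableOn ℂ (deriv h) {z : ℂ | 1 < ‖z‖} := hh.1.deriv isOpen_ext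
  have h2 : HasDerivAt (deriv h) (deriv (deriv h) v⁻¹) v⁻¹ :=
    (hd.differentiableAt (isOpen_ext.mem_nhds hz)).hasDerivAt
  have h3 : HasDerivAt (fun w : ℂ => deriv h w⁻¹) (deriv (deriv h) v⁻¹ * -(v ^ 2)⁻¹) v :=
    h2.comp v (hasDerivAt_inv hv0)
  have h4 : HasDerivAt (fun w : ℂ => -(w ^ 2)⁻¹) (-(-((2 : ℕ) * v ^ (2 - 1)) / (v ^ 2) ^ 2)) v :=
    ((hasDerivAt_pow 2 v).inv (pow_ne_zero 2 hv0)).neg
  have h5 : deriv (fun w => deriv h w⁻¹ * -(w ^ 2)⁻¹) v = deriv (deriv h) v⁻¹ * -(v ^ 2)⁻¹ *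
      -(v ^ 2)⁻¹ + deriv h v⁻¹ * (-(-((2 : ℕ) * v ^ (2 - 1)) / (v ^ 2) ^ 2)) := (h3.mul h4).deriv
  rw [h5]
  push_cast
  field_simp

/-- the job SCHW -/
theorem schw_ray : Q90.SM.S_schw := by
  intro ψ h hs k hk hS η hη
  have hh := sig_hol hs
  set H := hat h 0 with hH
  have hHd : DifferentiableOn ℂ H (ball 0 1) := hat_diff hh
  have hH1 : DifferentiableOn ℂ (deriv H) (ball 0 1) := hHd.deriv isOpen_ball
  have hη0 : η ≠ 0 := by
    rintro rfl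
    rw [norm_zero] at hη
    exact zero_ne_one hη
  have hmem : ∀ s : ℝ, 0 < s → s < 1 → (s : ℂ) * η ∈ ball (0 : ℂ) 1 := by
    intro s h0 h1
    rw [mem_ball_zero_iff, norm_mul, hη, mul_one, Complex.norm_real, Real.norm_eq_abs,
      abs_of_pos h0]
    exact h1
  refine ⟨fun s => ((-(2 * s) : ℝ) : ℂ) * ((s : ℂ) * η * deriv H ((s : ℂ) * η)) +
      ((1 - s ^ 2 : ℝ) : ℂ) * (η * deriv H ((s : ℂ) * η) +
        (s : ℂ) * η * (deriv (deriv H) ((s : ℂ) * η) * η)),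
    fun s => ((1 - s ^ 2 : ℝ) : ℂ) ^ 2 * (((s : ℂ) * η)⁻¹ ^ 2 * schw ψ ((s : ℂ) * η)⁻¹), ?_, ?_⟩
  · intro s h0 h1
    have hv := hmem s h0 h1
    have hs0 : (s : ℂ) ≠ 0 := by exact_mod_cast h0.ne'
    have hv0 : (s : ℂ) * η ≠ 0 := mul_ne_zero hs0 hη0
    have hz := inv_ext hv hv0
    refine ⟨?_, ?_, ?_⟩
    · have e1 : HasDerivAt (fun s : ℝ => (s : ℂ) * η) η s := by
        have := (Complex.ofRealCLM.hasDerivAt (x := s)).mul_const η
        simpa using this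
      have e2 : HasDerivAt (fun s : ℝ => deriv H ((s : ℂ) * η))
          (deriv (deriv H) ((s : ℂ) * η) * η) s := by
        have h2 : HasDerivAt (deriv H) (deriv (deriv H) ((s : ℂ) * η)) ((s : ℂ) * η) :=
          (hH1.differentiableAt (isOpen_ball.mem_nhds hv)).hasDerivAt
        exact h2.comp s e1
      have e3 : HasDerivAt (fun s : ℝ => ((1 - s ^ 2 : ℝ) : ℂ)) (((-(2 * s)) : ℝ) : ℂ) s := by
        have h3 : HasDerivAt (fun s : ℝ => (1 - s ^ 2 : ℝ)) (-(2 * s)) s := by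
          have := (hasDerivAt_pow 2 s).const_sub 1
          simpa using this
        exact h3.ofReal_comp
      exact e3.mul (e1.mul e2)
    · have e1 := hS _ hz
      have e2 : ‖((s : ℂ) * η)⁻¹‖ = s⁻¹ := by
        rw [norm_inv, norm_mul, hη, mul_one, Complex.norm_real, Real.norm_eq_abs, abs_of_pos h0]
      rw [e2] at e1
      have e3 : ‖((1 - s ^ 2 : ℝ) : ℂ)‖ = 1 - s ^ 2 := by
        rw [Complex.norm_real, Real.norm_eq_abs, abs_of_pos]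
        nlinarith
      rw [norm_mul, norm_pow, e3, norm_mul, norm_pow, e2]
      have e4 : (s⁻¹ ^ 2 - 1) ^ 2 = (1 - s ^ 2) ^ 2 * (s⁻¹ ^ 4) := by
        field_simp
      rw [e4] at e1
      have e5 : (1 - s ^ 2) ^ 2 * (s⁻¹ ^ 2 * ‖schw ψ ((s : ℂ) * η)⁻¹‖) =
          ((1 - s ^ 2) ^ 2 * s⁻¹ ^ 4 * ‖schw ψ ((s : ℂ) * η)⁻¹‖) * s ^ 2 := by
        field_simp
      rw [e5]
      exact mul_le_mul_of_nonneg_right e1 (sq_nonneg s)
    · have f1 := (hat_hasDeriv hh hv hv0).deriv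
      have f2 := hat_deriv2 hh hv hv0
      rw [← hH] at f1 f2
      dsimp only
      rw [schw_eq hs hz, f1, f2]
      have g1 : ((s : ℂ) * η) * ((s : ℂ) * η)⁻¹ = 1 := mul_inv_cancel₀ hv0
      obtain ⟨A, hA⟩ : ∃ A, A = deriv h ((s : ℂ) * η)⁻¹ := ⟨_, rfl⟩
      obtain ⟨B, hB⟩ : ∃ B, B = deriv (deriv h) ((s : ℂ) * η)⁻¹ := ⟨_, rfl⟩
      rw [← hA, ← hB]
      push_cast
      field_simp
      ring
  · have hcont : ContinuousAt (fun s : ℝ => ((1 - s ^ 2 : ℝ) : ℂ) *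
        ((s : ℂ) * η * deriv H ((s : ℂ) * η))) 0 := by
      have c1 : ContinuousAt (fun s : ℝ => (s : ℂ) * η) 0 := by fun_prop
      have c2 : ContinuousAt (deriv H) (((0 : ℝ) : ℂ) * η) := by
        have : ((0 : ℝ) : ℂ) * η ∈ ball (0 : ℂ) 1 := by simp
        exact (hH1.differentiableAt (isOpen_ball.mem_nhds this)).continuousAt
      have c3 : ContinuousAt (fun s : ℝ => deriv H ((s : ℂ) * η)) 0 :=
        ContinuousAt.comp (f := fun s : ℝ => (s : ℂ) * η) c2 c1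
      have c4 : ContinuousAt (fun s : ℝ => ((1 - s ^ 2 : ℝ) : ℂ)) 0 := by fun_prop
      exact c4.mul (c1.mul c3)
    have h2 := hcont.tendsto
    have h3 : ((1 - (0 : ℝ) ^ 2 : ℝ) : ℂ) * (((0 : ℝ) : ℂ) * η * deriv H (((0 : ℝ) : ℂ) * η)) = 0 := by
      simp
    rw [h3] at h2
    exact h2.mono_left nhdsWithin_le_nhds

end Q14.SM
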